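import Pool.Agent.Y254.HK.Stm
import Pool.Agent.W85.HD.Ent

/-!
# Project HK: Cordoba's argument (job HK-CORD)
-/

set_option autoImplicit false

open Finset
open scoped Classical

namespace Pool.Agent.Y899.HK
open Pool.Agent.W904.AK Pool.Agent.W46.HD Pool.Agent.W46.HM Pool.Agent.Y244.HM
  Pool.Agent.W597.HD Pool.Agent.Y254HK

/-- directions are at distance at most one -/
theorem norm_sub_le_one {Ω : Type} {d n : ℕ} {D : Ω → Fin d → ℝ} (h : IsFam n D) (ω ω' : Ω) :
    ‖D ω - D ω'‖ ≤ 1 := by
  rw [pi_norm_le_iff_of_nonneg zero_le_one]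
  intro i
  rw [Real.norm_eq_abs, abs_le]
  have h1 := h.lo ω i
  have h2 := h.hi ω i
  have h3 := h.lo ω' i
  have h4 := h.hi ω' i
  constructor <;> simp only [Pi.sub_apply] <;> linarith

/-- two heights at which two lines have the same cell -/
theorem heights_close {Ω : Type} {d n : ℕ} (A D : Ω → Fin d → ℝ) (ω ω' : Ω) (i i' : Fin n)
    (h : cell A D i ω = cell A D i ω') (h' : cell A D i' ω = cell A D i' ω') :
    |((i : ℕ) : ℝ) - ((i' : ℕ) : ℝ)| * ‖D ω - D ω'‖ ≤ 2 := by
  rw [← Real.norm_eq_abs, ← norm_smul, pi_norm_le_iff_of_nonneg (by norm_num)]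
  intro k
  have h1 : |(A ω k + ((i : ℕ) : ℝ) * D ω k) - (A ω' k + ((i : ℕ) : ℝ) * D ω' k)| ≤ 1 :=
    same_floor (congrFun h k)
  have h2 : |(A ω k + ((i' : ℕ) : ℝ) * D ω k) - (A ω' k + ((i' : ℕ) : ℝ) * D ω' k)| ≤ 1 :=
    same_floor (congrFun h' k)
  rw [Real.norm_eq_abs]
  rw [abs_le] at h1 h2 ⊢
  simp only [Pi.smul_apply, Pi.sub_apply, smul_eq_mul]
  constructor <;> nlinarith [h1.1, h1.2, h2.1, h2.2]

/-- a finite set of heights with diameter at most `r` -/
theorem card_heights {n : ℕ} (T : Finset (Fin n)) (r : ℝ) (hr : 0 ≤ r)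
    (h : ∀ i ∈ T, ∀ i' ∈ T, |((i : ℕ) : ℝ) - ((i' : ℕ) : ℝ)| ≤ r) : (T.card : ℝ) ≤ r + 1 := by
  rcases T.eq_empty_or_nonempty with rfl | hne
  · rw [Finset.card_empty, Nat.cast_zero]
    linarith
  have hmin := T.min'_mem hne
  set a := T.min' hne with ha
  have h1 : T.image (fun i : Fin n => (i : ℕ)) ⊆ Finset.Icc (a : ℕ) ((a : ℕ) + ⌊r⌋₊) := by
    intro x hx
    obtain ⟨i, hi, rfl⟩ := Finset.mem_image.1 hx
    have h2 : a ≤ i := T.min'_le i hi
    have h2' : (a : ℕ) ≤ (i : ℕ) := h2
    rw [Finset.mem_Icc]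
    refine ⟨h2', ?_⟩
    have h3 := (le_abs_self _).trans (h i hi a hmin)
    have h4 : ((i : ℕ) - (a : ℕ) : ℕ) ≤ ⌊r⌋₊ := by
      apply Nat.le_floor
      rw [Nat.cast_sub h2']
      exact h3
    omega
  have h5 := Finset.card_le_card h1
  rw [Finset.card_image_of_injective _ Fin.val_injective, Nat.card_Icc] at h5
  have h6 : T.card ≤ ⌊r⌋₊ + 1 := by omega
  have h7 : (T.card : ℝ) ≤ (⌊r⌋₊ : ℝ) + 1 := by exact_mod_cast h6
  linarith [Nat.floor_le hr]

theorem t_cord : S_CORD := by
  intro d
  refine ⟨4, by norm_num, ?_⟩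
  intro n Ω _ A D hfam Θ _ γ q l j R K hq hK hT
  have hn : 1 ≤ n := hfam.pos
  have hnR : (1 : ℝ) ≤ n := by exact_mod_cast hn
  -- the gluing
  set f : Θ → γ × Fin n × (Fin d → ℤ) := fun z => (R z, j z, cell A D (j z) (l z)) with hf
  set u : Θ → γ × Ω × Fin n := fun z => (R z, l z, j z) with hu
  have huf : Det q u f := by
    intro x y _ _ h
    simp only [hu, hf, Prod.mk.injEq] at h ⊢
    obtain ⟨h1, h2, h3⟩ := h
    exact ⟨h1, h3, by rw [h2, h3]⟩
  have hfg : ∀ c, im q f c = im q f c := fun _ => rfl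
  have hg := glue_law hq hq hfg
  have e0 := H_glue hq hq hfg huf huf
  set g := glue q q f f with hgdef
  -- the level
  set X : Θ × Θ → ℝ := fun w => (n : ℝ) * ‖D (l w.1) - D (l w.2)‖ with hX
  set κ : Θ × Θ → ℕ := fun w => Nat.log 2 ⌊X w⌋₊ with hκ
  have hX0 : ∀ w, 0 ≤ X w := fun w => by positivity
  have hXn : ∀ w, X w ≤ n := by
    intro w
    have h1 := norm_sub_le_one hfam (l w.1) (l w.2)
    calc X w ≤ n * 1 := mul_le_mul_of_nonneg_left h1 (by positivity)
      _ = n := mul_one _
  have hX2 : ∀ w, X w ≤ 2 ^ (κ w + 1) := by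
    intro w
    have h1 := Nat.lt_pow_succ_log_self (b := 2) (by norm_num) ⌊X w⌋₊
    have h2 : ⌊X w⌋₊ + 1 ≤ 2 ^ (κ w + 1) := h1
    have h3 : ((⌊X w⌋₊ + 1 : ℕ) : ℝ) ≤ ((2 ^ (κ w + 1) : ℕ) : ℝ) := by exact_mod_cast h2
    push_cast at h3
    linarith [Nat.lt_floor_add_one (X w)]
  -- supports
  have hsupp : ∀ w, g w ≠ 0 → (R w.1 = R w.2 ∧ j w.1 = j w.2 ∧
      cell A D (j w.1) (l w.1) = cell A D (j w.2) (l w.2)) ∧ q w.1 ≠ 0 ∧ q w.2 ≠ 0 := by
    intro w hw
    have h1 := glue_supp hw
    have h2 := h1.1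
    simp only [hf, Prod.mk.injEq] at h2
    exact ⟨h2, h1.2⟩
  -- the steps
  have s0 : H g (fun w => (u w.1, u w.2)) ≤
      H g (fun w => ((((R w.1, l w.1), κ w), l w.2), j w.1)) := by
    refine H_mono hg ?_
    intro x y hx hy h
    have hx' := hsupp x hx
    have hy' := hsupp y hy
    simp only [Prod.mk.injEq] at h
    obtain ⟨⟨⟨⟨h1, h2⟩, _⟩, h4⟩, h5⟩ := h
    simp only [hu, Prod.mk.injEq]
    refine ⟨⟨h1, h2, h5⟩, ?_, h4, ?_⟩
    · rw [← hx'.1.1, ← hy'.1.1, h1]
    · rw [← hx'.1.2.1, ← hy'.1.2.1, h5]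
  have s1 : H g (fun w => ((R w.1, l w.1), κ w)) ≤ H g (fun w => (R w.1, l w.1)) + H g κ :=
    subadd hg (Det.refl g _)
  have s2 : H g (fun w => (R w.1, l w.1)) = H q (fun z => (R z, l z)) :=
    H_glue_fst hq hfg (fun z => (R z, l z))
  have s3 : H g κ ≤ 1 + Real.log (1 + Real.log n) := by
    have h1 := H_le_log_card hg κ (Finset.range (Nat.log 2 n + 1)) (fun w _ => by
      rw [Finset.mem_range, Nat.lt_succ_iff]
      apply Nat.log_mono_right
      have h2 : ((⌊X w⌋₊ : ℕ) : ℝ) ≤ n := (Nat.floor_le (hX0 w)).trans (hXn w)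
      exact_mod_cast h2)
    rw [Finset.card_range] at h1
    refine h1.trans ?_
    have hlog : 0 ≤ Real.log n := Real.log_nonneg hnR
    have h2 : ((Nat.log 2 n : ℕ) : ℝ) * Real.log 2 ≤ Real.log n := by
      have h3 : ((2 ^ Nat.log 2 n : ℕ) : ℝ) ≤ n := by
        exact_mod_cast Nat.pow_log_le_self 2 (by omega)
      have h4 := Real.log_le_log (by positivity) h3
      rw [Nat.cast_pow, Real.log_pow] at h4
      exact_mod_cast h4
    have h5 : (1 : ℝ) / 2 ≤ Real.log 2 := by
      have := Real.log_two_gt_d9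
      linarith
    have h6 : ((Nat.log 2 n : ℕ) : ℝ) ≤ 2 * Real.log n := by
      have h7 : (0 : ℝ) ≤ ((Nat.log 2 n : ℕ) : ℝ) := Nat.cast_nonneg _
      nlinarith
    calc Real.log ((Nat.log 2 n + 1 : ℕ) : ℝ) ≤ Real.log (2 * (1 + Real.log n)) := by
          apply Real.log_le_log (by positivity)
          push_cast
          linarith
      _ = Real.log 2 + Real.log (1 + Real.log n) := Real.log_mul (by norm_num) (by positivity)
      _ ≤ 1 + Real.log (1 + Real.log n) := by
          have := Real.log_two_lt_d9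
          linarith
  -- the cost of the second line
  have s4 := cost Pool.Agent.W85.HD.COST hg (f := fun w => ((R w.1, l w.1), κ w))
    (g := fun w => l w.2) (k := fun w => (((R w.1, l w.1), κ w), l w.2))
    (fun w => (κ w + 1) * Real.log 2 + K w.1) (Det.refl g _) (by
      intro w hw
      have hw' := hsupp w hw
      refine ⟨Finset.univ.filter fun ω => ∃ w', g w' ≠ 0 ∧
        ((R w'.1, l w'.1), κ w') = ((R w.1, l w.1), κ w) ∧ l w'.2 = ω, ?_, ?_⟩
      · intro y hy hyw
        exact Finset.mem_filter.2 ⟨Finset.mem_univ _, y, hy, hyw, rfl⟩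
      · have h1 : (1 : ℝ) ≤ 2 ^ (κ w + 1) := one_le_pow₀ (by norm_num)
        have hcard := hT w.1 hw'.2.1 (2 ^ (κ w + 1)) h1 (Finset.univ.filter fun ω => ∃ w',
          g w' ≠ 0 ∧ ((R w'.1, l w'.1), κ w') = ((R w.1, l w.1), κ w) ∧ l w'.2 = ω) (by
            intro ω hω
            obtain ⟨w', hw1, hw2, hw3⟩ := (Finset.mem_filter.1 hω).2
            have hs := hsupp w' hw1
            simp only [Prod.mk.injEq] at hw2
            obtain ⟨⟨k1, k2⟩, k3⟩ := hw2
            refine ⟨?_, w'.2, hs.2.2, ?_, hw3, ?_⟩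
            · rw [← k3, ← hw3, ← k2, norm_sub_rev]
              exact hX2 w'
            · rw [← hs.1.1, k1]
            · rw [← hw3, ← hs.1.2.2, ← hs.1.2.1, k2])
        rcases Nat.eq_zero_or_pos (Finset.univ.filter fun ω => ∃ w',
          g w' ≠ 0 ∧ ((R w'.1, l w'.1), κ w') = ((R w.1, l w.1), κ w) ∧ l w'.2 = ω).card
          with h0 | h0
        · rw [h0, Nat.cast_zero, Real.log_zero]
          have := Real.log_nonneg (show (1 : ℝ) ≤ 2 by norm_num)
          have := hK w.1 hw'.2.1
          positivity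
        · refine (Real.log_le_log (by exact_mod_cast h0) hcard).trans (le_of_eq ?_)
          rw [Real.log_mul (by positivity) (by positivity), Real.log_exp, Real.log_pow]
          push_cast
          ring)
  -- the cost of the height
  have s5 := cost Pool.Agent.W85.HD.COST hg (f := fun w => (((R w.1, l w.1), κ w), l w.2))
    (g := fun w => j w.1) (k := fun w => ((((R w.1, l w.1), κ w), l w.2), j w.1))
    (fun w => (Real.log 3 + Real.log n) - κ w * Real.log 2) (Det.refl g _) (by
      intro w hw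
      refine ⟨Finset.univ.filter fun i : Fin n =>
        cell A D i (l w.1) = cell A D i (l w.2), ?_, ?_⟩
      · intro y hy hyw
        simp only [Prod.mk.injEq] at hyw
        obtain ⟨⟨⟨_, k2⟩, _⟩, k4⟩ := hyw
        have hs := hsupp y hy
        rw [Finset.mem_filter]
        refine ⟨Finset.mem_univ _, ?_⟩
        rw [← k2, ← k4, hs.1.2.2, hs.1.2.1]
      · set T := Finset.univ.filter fun i : Fin n =>
          cell A D i (l w.1) = cell A D i (l w.2) with hTdef
        have hcn : (T.card : ℝ) ≤ 3 * n / 2 ^ κ w := by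
          by_cases hm : ⌊X w⌋₊ = 0
          · have hk0 : κ w = 0 := by
              show Nat.log 2 ⌊X w⌋₊ = 0
              rw [hm, Nat.log_zero_right]
            rw [hk0, pow_zero, div_one]
            have h1 : T.card ≤ n := by
              have := Finset.card_le_univ T
              rwa [Fintype.card_fin] at this
            have h2 : (T.card : ℝ) ≤ n := by exact_mod_cast h1
            linarith
          · have h1 : 2 ^ κ w ≤ ⌊X w⌋₊ := Nat.pow_log_le_self 2 hm
            have h2 : (2 : ℝ) ^ κ w ≤ X w := by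
              have h3 : ((2 ^ κ w : ℕ) : ℝ) ≤ (⌊X w⌋₊ : ℝ) := by exact_mod_cast h1
              push_cast at h3
              exact h3.trans (Nat.floor_le (hX0 w))
            have hXpos : 0 < X w := lt_of_lt_of_le (by positivity) h2
            have h4 := card_heights T (2 * n / X w) (by positivity) (by
              intro i hi i' hi'
              have h5 := heights_close A D (l w.1) (l w.2) i i' (Finset.mem_filter.1 hi).2
                (Finset.mem_filter.1 hi').2
              rw [le_div_iff₀ hXpos]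
              calc |((i : ℕ) : ℝ) - ((i' : ℕ) : ℝ)| * X w =
                  n * (|((i : ℕ) : ℝ) - ((i' : ℕ) : ℝ)| * ‖D (l w.1) - D (l w.2)‖) := by
                    rw [hX]
                    ring
                _ ≤ n * 2 := mul_le_mul_of_nonneg_left h5 (by positivity)
                _ = 2 * n := by ring)
            have h6 : (1 : ℝ) ≤ n / X w := by
              rw [le_div_iff₀ hXpos, one_mul]
              exact hXn w
            have h7 : 3 * (n : ℝ) / X w ≤ 3 * n / 2 ^ κ w :=
              div_le_div_of_nonneg_left (by positivity) (by positivity) h2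
            calc (T.card : ℝ) ≤ 2 * n / X w + 1 := h4
              _ ≤ 2 * n / X w + n / X w := by linarith
              _ = 3 * n / X w := by ring
              _ ≤ _ := h7
        rcases Nat.eq_zero_or_pos T.card with h0 | h0
        · rw [h0, Nat.cast_zero, Real.log_zero]
          have h1 : (1 : ℝ) ≤ 3 * n / 2 ^ κ w := by
            rw [le_div_iff₀ (by positivity), one_mul]
            by_cases hm : ⌊X w⌋₊ = 0
            · have hk0 : κ w = 0 := by
                show Nat.log 2 ⌊X w⌋₊ = 0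
                rw [hm, Nat.log_zero_right]
              rw [hk0, pow_zero]
              linarith
            · have h1 : 2 ^ κ w ≤ ⌊X w⌋₊ := Nat.pow_log_le_self 2 hm
              have h3 : ((2 ^ κ w : ℕ) : ℝ) ≤ (⌊X w⌋₊ : ℝ) := by exact_mod_cast h1
              push_cast at h3
              have := (Nat.floor_le (hX0 w)).trans (hXn w)
              linarith
          have h2 := Real.log_nonneg h1
          rw [Real.log_div (by positivity) (by positivity), Real.log_mul (by norm_num)
            (by positivity), Real.log_pow] at h2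
          exact h2
        · refine (Real.log_le_log (by exact_mod_cast h0) hcn).trans (le_of_eq ?_)
          rw [Real.log_div (by positivity) (by positivity), Real.log_mul (by norm_num)
            (by positivity), Real.log_pow])
  -- the expectations
  have e1 : EE g (fun w => (κ w + 1) * Real.log 2 + K w.1) +
      EE g (fun w => (Real.log 3 + Real.log n) - κ w * Real.log 2) =
      (Real.log 2 + Real.log 3 + Real.log n) + ∑ z, q z * K z := by
    rw [← EE_add]
    have h1 : (fun w : Θ × Θ => (κ w + 1) * Real.log 2 + K w.1 +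
        ((Real.log 3 + Real.log n) - κ w * Real.log 2)) =
        fun w => (Real.log 2 + Real.log 3 + Real.log n) + K w.1 := by
      funext w
      ring
    rw [h1, EE_add, EE_const hg]
    congr 1
    have h2 := sum_im_mul g Prod.fst K
    rw [glue_fst hq hfg] at h2
    exact h2.symm
  have l2 := Real.log_two_lt_d9
  have l3 : Real.log 3 ≤ 2 * Real.log 2 := by
    rw [← Real.log_rpow (by norm_num)]
    apply Real.log_le_log (by norm_num)
    norm_num
  have l4 : 0 ≤ Real.log (1 + Real.log n) := by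
    apply Real.log_nonneg
    linarith [Real.log_nonneg hnR]
  have e2 : 4 * (1 + Real.log (1 + Real.log n)) = 4 + 4 * Real.log (1 + Real.log n) := by ring
  rw [e2]
  linarith

end Pool.Agent.Y899.HK
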