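import Pool.Agent.Y254.HK.Stm

/-!
# Project HK: deficiencies and sizes of the configuration (job HK-W)
-/

set_option autoImplicit false

open Finset
open scoped Classical

namespace Pool.Agent.Y899.HK
open Pool.Agent.W904.AK Pool.Agent.W46.HD Pool.Agent.W46.HM Pool.Agent.Y244.HM
  Pool.Agent.W597.HD Pool.Agent.Y254HK

theorem t_w : S_W := by
  intro d b _
  refine ⟨3, by norm_num, ?_⟩
  intro n Ω iΩ A D _ p S E C0 _ Θ iΘ q l1 l2 l3 s0 s1 t t' τ v hc hg hE hC0 _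
  have hq := hc.law
  have ha := hg.fa
  obtain ⟨Y, hY⟩ : ∃ Y : Θ → ℤ, Y = YY s0 s1 t t' := ⟨_, rfl⟩
  obtain ⟨M, hM⟩ : ∃ M : Θ → ℤ, M = MM s0 s1 t t' τ v := ⟨_, rfl⟩
  have hwT : wT q l1 l3 s0 s1 t t' = Real.log n -
      (H q (fun z => (l1 z, l3 z, s0 z, s1 z, Y z, t z)) -
        H q (fun z => (l1 z, l3 z, s0 z, s1 z, Y z))) := by
    rw [hY]
    rfl
  have hwG : wG q l1 l2 l3 s0 s1 t t' τ v = Real.log n -
      (H q (fun z => (l1 z, l2 z, l3 z, s0 z, s1 z, v z, M z, τ z)) -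
        H q (fun z => (l1 z, l2 z, l3 z, s0 z, s1 z, v z, M z))) := by
    rw [hM]
    rfl
  have g6 := ha.g6
  have g5 := ha.g5
  have sy := ha.sy
  have sm := ha.sm
  rw [← hY] at g6 g5 sy
  rw [← hM] at g5 sm
  have f1 := hc.f1
  have f2 := hc.f2
  have f3 := hc.f3
  have f4 := hc.f4
  have nt := H_height hq t
  have nτ := H_height hq τ
  -- the sizes
  have a1 : H q (fun z => (l1 z, l3 z, s0 z, s1 z, Y z, t z)) ≤
      H q (fun z => (l1 z, l3 z, s0 z, s1 z, Y z)) + H q t :=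
    subadd hq (by intro x y _ _ h; simp only [Prod.mk.injEq] at h ⊢; tauto)
  have a2 : H q (fun z => (l1 z, l2 z, l3 z, s0 z, s1 z, v z, M z, τ z)) ≤
      H q (fun z => (l1 z, l2 z, l3 z, s0 z, s1 z, v z, M z)) + H q τ :=
    subadd hq (by intro x y _ _ h; simp only [Prod.mk.injEq] at h ⊢; tauto)
  have a3 : H q (fun z => (l1 z, l3 z, s0 z, s1 z, Y z)) ≤
      H q (fun z => (l1 z, l3 z, s0 z, s1 z)) + H q Y :=
    subadd hq (by intro x y _ _ h; simp only [Prod.mk.injEq] at h ⊢; tauto)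
  have a4 : H q (fun z => (l1 z, l2 z, l3 z, s0 z, s1 z, v z, M z)) ≤
      H q (fun z => (l1 z, l2 z, l3 z, s0 z, s1 z, v z)) + H q M :=
    subadd hq (by intro x y _ _ h; simp only [Prod.mk.injEq] at h ⊢; tauto)
  -- the first pair
  have c1 : H q (fun z => (l1 z, l3 z, s0 z, s1 z, t z, t' z)) +
      H q (fun z => (s0 z, s1 z, t z, Y z)) ≤
      H q (fun z => (l1 z, l3 z, s0 z, s1 z, Y z, t z)) +
      H q (fun z => ((s0 z, s1 z, t z, Y z), t' z)) :=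
    submod' hq (by intro x y _ _ h; simp only [Prod.mk.injEq] at h ⊢; tauto)
      (by intro x y _ _ h; simp only [Prod.mk.injEq] at h ⊢; tauto)
      (by intro x y _ _ h; simp only [Prod.mk.injEq] at h ⊢; tauto)
  -- the triple
  have c2 : H q (fun z => (l1 z, l2 z, l3 z, s0 z, s1 z, v z, t z, τ z, t' z)) +
      H q (fun z => (s0 z, s1 z, t z, Y z)) ≤
      H q (fun z => (l1 z, l2 z, l3 z, s0 z, s1 z, v z, t z, τ z, Y z)) +
      H q (fun z => ((s0 z, s1 z, t z, Y z), t' z)) :=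
    submod' hq (by intro x y _ _ h; simp only [Prod.mk.injEq] at h ⊢; tauto)
      (by intro x y _ _ h; simp only [Prod.mk.injEq] at h ⊢; tauto)
      (by intro x y _ _ h; simp only [Prod.mk.injEq] at h ⊢; tauto)
  have c3 : H q (fun z => (l1 z, l2 z, l3 z, s0 z, s1 z, v z, t z, τ z, Y z)) +
      H q (fun z => (l1 z, l3 z, s0 z, s1 z, Y z)) ≤
      H q (fun z => (l1 z, l2 z, l3 z, s0 z, s1 z, v z, τ z, Y z)) +
      H q (fun z => (l1 z, l3 z, s0 z, s1 z, Y z, t z)) :=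
    submod' hq (by intro x y _ _ h; simp only [Prod.mk.injEq] at h ⊢; tauto)
      (by intro x y _ _ h; simp only [Prod.mk.injEq] at h ⊢; tauto)
      (by intro x y _ _ h; simp only [Prod.mk.injEq] at h ⊢; tauto)
  have c4 : H q (fun z => (l1 z, l2 z, l3 z, s0 z, s1 z, v z, τ z, Y z)) +
      H q (fun z => (s1 z, v z, τ z, M z)) ≤
      H q (fun z => (l1 z, l2 z, l3 z, s0 z, s1 z, v z, M z, τ z)) +
      H q (fun z => ((s1 z, v z, τ z, M z), Y z)) :=
    submod' hq (by intro x y _ _ h; simp only [Prod.mk.injEq] at h ⊢; tauto)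
      (by intro x y _ _ h; simp only [Prod.mk.injEq] at h ⊢; tauto)
      (by intro x y _ _ h; simp only [Prod.mk.injEq] at h ⊢; tauto)
  have e3 : 3 * (E + C0) = 3 * E + 3 * C0 := by ring
  show 0 ≤ wT q l1 l3 s0 s1 t t' ∧ 0 ≤ wG q l1 l2 l3 s0 s1 t t' τ v ∧
    wT q l1 l3 s0 s1 t t' ≤ 2 * lam p + 3 * (E + C0) ∧
    wT q l1 l3 s0 s1 t t' + wG q l1 l2 l3 s0 s1 t t' τ v ≤ 3 * lam p + 3 * (E + C0) ∧
    2 * aa p - hh A D p + 3 * Real.log n - 5 * lam p + wT q l1 l3 s0 s1 t t' ≤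
      H q (fun z => (l1 z, l3 z, s0 z, s1 z, YY s0 s1 t t' z)) + 3 * (E + C0) ∧
    3 * aa p - 2 * hh A D p + 4 * Real.log n - 8 * lam p + wT q l1 l3 s0 s1 t t' +
      wG q l1 l2 l3 s0 s1 t t' τ v ≤
      H q (fun z => (l1 z, l2 z, l3 z, s0 z, s1 z, v z, MM s0 s1 t t' τ v z)) + 3 * (E + C0)
  rw [← hY, ← hM, hwT, hwG, e3]
  refine ⟨?_, ?_, ?_, ?_, ?_, ?_⟩
  · linarith
  · linarith
  · linarith
  · linarith
  · linarith
  · linarith

end Pool.Agent.Y899.HK
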